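import Pool.Agent.W2helper5.QD.Stm

/-!
# Project QD, piece BIJ: quadrisections and zeros of the defect
-/

set_option autoImplicit false

namespace Pool.Agent.W2helper85.QD

open MeasureTheory Set Pool.V11275.Quad Pool.Agent.Helper717.Hull1 Pool.Agent.Helper717.Hull2
open Pool.Agent.W2helper5.QD

lemma line_dir {P Q u v : E2} (h : line P u = line Q v) : cr u v = 0 := by
  have h1 : P ∈ line Q v := h ▸ ⟨0, by simp⟩
  have h2 : P + u ∈ line Q v := h ▸ ⟨1, by simp⟩
  obtain ⟨s, hs⟩ := h1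
  obtain ⟨t, ht⟩ := h2
  have e0 := congrFun (congrArg (fun x : E2 => (x : Fin 2 → ℝ)) hs) 0
  have e1 := congrFun (congrArg (fun x : E2 => (x : Fin 2 → ℝ)) hs) 1
  have f0 := congrFun (congrArg (fun x : E2 => (x : Fin 2 → ℝ)) ht) 0
  have f1 := congrFun (congrArg (fun x : E2 => (x : Fin 2 → ℝ)) ht) 1
  simp only [PiLp.add_apply, PiLp.smul_apply, smul_eq_mul] at e0 e1 f0 f1
  have g0 : u 0 = (t - s) * v 0 := by linarith
  have g1 : u 1 = (t - s) * v 1 := by linarith
  unfold cr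
  rw [g0, g1]
  ring

lemma pair_dir {a φ ψ : ℝ} (h1 : a ≤ φ) (h2 : φ < a + Real.pi / 2) (h3 : a ≤ ψ)
    (h4 : ψ < a + Real.pi / 2) {P Q : E2}
    (h : ({line P (e φ), line P (rot (e φ))} : Set (Set E2)) =
      {line Q (e ψ), line Q (rot (e ψ))}) : φ = ψ := by
  have hpi := Real.pi_pos
  have hm : line P (e φ) ∈ ({line Q (e ψ), line Q (rot (e ψ))} : Set (Set E2)) := by
    rw [← h]
    exact mem_insert _ _
  rcases hm with hm | hm
  · have h5 := line_dir hm
    rw [cr_e] at h5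
    have h6 := (Real.sin_eq_zero_iff_of_lt_of_lt (by linarith) (by linarith)).1 h5
    linarith
  · have h5 := line_dir (mem_singleton_iff.1 hm)
    rw [rot_e, cr_e, show ψ + Real.pi / 2 - φ = (ψ - φ) + Real.pi / 2 by ring,
      Real.sin_add_pi_div_two] at h5
    have h6 := Real.cos_pos_of_mem_Ioo (x := ψ - φ) ⟨by linarith, by linarith⟩
    exact absurd h5 h6.ne'

lemma polar {u : E2} (hu : u ≠ 0) : ∃ r φ : ℝ, 0 < r ∧ u = r • e φ := by
  set z : ℂ := ⟨u 0, u 1⟩ with hz
  have hz0 : z ≠ 0 := by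
    intro h
    apply hu
    have h0 := congrArg Complex.re h
    have h1 := congrArg Complex.im h
    simp only [hz, Complex.zero_re, Complex.zero_im] at h0 h1
    apply ext2 <;> simp [h0, h1]
  refine ⟨‖z‖, Complex.arg z, norm_pos_iff.2 hz0, ?_⟩
  apply ext2
  · simp only [PiLp.smul_apply, smul_eq_mul, e_zero']
    rw [Complex.norm_mul_cos_arg]
  · simp only [PiLp.smul_apply, smul_eq_mul, e_one']
    rw [Complex.norm_mul_sin_arg]

lemma rot_iter_e (φ : ℝ) (k : ℕ) : rot^[k] (e φ) = e (φ + k * (Real.pi / 2)) := by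
  induction k with
  | zero => simp
  | succ k ih =>
    rw [Function.iterate_succ_apply', ih, rot_e]
    congr 1
    push_cast
    ring

lemma e_int (φ : ℝ) (m : ℤ) : e (φ + m * (2 * Real.pi)) = e φ := by
  apply ext2
  · simp only [e_zero']
    exact Real.cos_add_int_mul_two_pi _ _
  · simp only [e_one']
    exact Real.sin_add_int_mul_two_pi _ _

lemma exists_shift (a φ : ℝ) : ∃ (k : ℕ) (ψ : ℝ), a ≤ ψ ∧ ψ < a + Real.pi / 2 ∧
    rot^[k] (e φ) = e ψ := by
  have hp : 0 < Real.pi / 2 := by positivity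
  obtain ⟨n, ⟨hn1, hn2⟩, -⟩ := existsUnique_add_zsmul_mem_Ico hp φ a
  refine ⟨(n % 4).toNat, φ + n • (Real.pi / 2), hn1, hn2, ?_⟩
  rw [rot_iter_e]
  have h1 : (((n % 4).toNat : ℕ) : ℤ) = n % 4 := Int.toNat_of_nonneg (Int.emod_nonneg _ (by norm_num))
  have h2 : ((((n % 4).toNat : ℕ) : ℤ) : ℝ) = ((n % 4 : ℤ) : ℝ) := by rw [h1]
  have h3 : n % 4 + 4 * (n / 4) = n := Int.emod_add_mul_ediv n 4
  have h4 : (n : ℝ) = ((n % 4 : ℤ) : ℝ) + 4 * ((n / 4 : ℤ) : ℝ) := by
    exact_mod_cast h3.symm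
  have h5 : φ + n • (Real.pi / 2) =
      (φ + (((n % 4).toNat : ℕ) : ℝ) * (Real.pi / 2)) + ((n / 4 : ℤ) : ℝ) * (2 * Real.pi) := by
    rw [zsmul_eq_mul, h4]
    have h6 : (((n % 4).toNat : ℕ) : ℝ) = ((n % 4 : ℤ) : ℝ) := by exact_mod_cast h2
    rw [h6]
    ring
  rw [h5, e_int]

lemma rot_smul (r : ℝ) (v : E2) : rot (r • v) = r • rot v := by
  apply ext2 <;> simp

lemma rot_iter_smul (r : ℝ) (v : E2) (k : ℕ) : rot^[k] (r • v) = r • rot^[k] v := by
  induction k with
  | zero => rfl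
  | succ k ih => rw [Function.iterate_succ_apply', ih, rot_smul, Function.iterate_succ_apply']

lemma line_smul (P v : E2) {r : ℝ} (hr : r ≠ 0) : line P (r • v) = line P v := by
  ext x
  constructor
  · rintro ⟨s, rfl⟩
    exact ⟨s * r, by rw [smul_smul]⟩
  · rintro ⟨s, rfl⟩
    exact ⟨s / r, by rw [smul_smul, div_mul_cancel₀ _ hr]⟩

lemma line_neg (P v : E2) : line P (-v) = line P v := by
  have := line_smul P v (r := -1) (by norm_num)
  rwa [neg_one_smul] at this

lemma quad_smul (P v : E2) {r : ℝ} (hr : 0 < r) : quad P (r • v) = quad P v := by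
  ext x
  constructor
  · rintro ⟨a, b, ha, hb, rfl⟩
    exact ⟨a * r, b * r, by positivity, by positivity, by rw [rot_smul, smul_smul, smul_smul]⟩
  · rintro ⟨a, b, ha, hb, rfl⟩
    exact ⟨a / r, b / r, by positivity, by positivity, by
      rw [rot_smul, smul_smul, smul_smul, div_mul_cancel₀ _ hr.ne', div_mul_cancel₀ _ hr.ne']⟩

lemma lines_iter (P v : E2) (k : ℕ) :
    ({line P (rot^[k] v), line P (rot (rot^[k] v))} : Set (Set E2)) = {line P v, line P (rot v)} := by
  induction k with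
  | zero => rfl
  | succ k ih =>
    rw [Function.iterate_succ_apply', rot_rot, line_neg, pair_comm, ih]

/-- the common point of the two bisectors -/
noncomputable def Pt (R : Set E2) (φ : ℝ) : E2 :=
  hh R φ • e φ + hh R (φ + Real.pi / 2) • rot (e φ)

noncomputable def Ps (R : Set E2) (φ : ℝ) : Set (Set E2) :=
  {line (Pt R φ) (e φ), line (Pt R φ) (rot (e φ))}

lemma pt_unique (φ : ℝ) (P : E2) :
    P = dot (e φ) P • e φ + dot (rot (e φ)) P • rot (e φ) := by
  have h := Real.sin_sq_add_cos_sq φ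
  apply ext2
  · simp only [dot, e_zero', e_one', rot_zero, rot_one, PiLp.add_apply, PiLp.smul_apply,
      smul_eq_mul]
    linear_combination (-(P 0)) * h
  · simp only [dot, e_zero', e_one', rot_zero, rot_one, PiLp.add_apply, PiLp.smul_apply,
      smul_eq_mul]
    linear_combination (-(P 1)) * h

lemma real_of_vol {R : Set E2} {S : Set E2} (hS : MeasurableSet S)
    (he : volume (R ∩ S) = volume R / 4) : (mu R).real S = M R / 4 := by
  unfold M Measure.real mu
  rw [Measure.restrict_apply hS, Measure.restrict_apply MeasurableSet.univ, univ_inter,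
    inter_comm, he, ENNReal.toReal_div]
  norm_num

/-- a quadrisection with the axis `e φ` -/
lemma data (hB : P_BASIC) {R : Set E2} (h : Body R) {P : E2} {φ : ℝ}
    (hq : ∀ k : ℕ, volume (R ∩ quad P (rot^[k] (e φ))) = volume R / 4) :
    P = Pt R φ ∧ G R φ = 0 := by
  set u : E2 := e φ with hu_def
  have hu : u ≠ 0 := e_ne φ
  have hu' := rot_ne hu
  obtain ⟨b1, b2, -, -, -, -⟩ := hB R h
  set c := dot u P with hPc
  set d := dot (rot u) P with hPd
  have hsub : ∀ (a x : E2), dot a (x - P) = dot a x - dot a P := by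
    intro a x; simp [dot]; ring
  have hneg : ∀ (a x : E2), dot (-a) x = - dot a x := by
    intro a x; simp [dot]; ring
  have hrn : rot (-u) = -rot u := by apply ext2 <;> simp
  have hrr : rot (-rot u) = u := by apply ext2 <;> simp
  have q0 : quad P u = {x | c ≤ dot u x} ∩ {x | d ≤ dot (rot u) x} := by
    ext x
    rw [quad_iff _ _ _ hu, hsub, hsub, ← hPc, ← hPd]
    simp only [mem_inter_iff, mem_ofPred_eq, sub_nonneg]
  have q1 : quad P (rot u) = {x | dot u x ≤ c} ∩ {x | d ≤ dot (rot u) x} := by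
    ext x
    rw [quad_iff _ _ _ hu', rot_rot, hsub, hsub, hneg, hneg, ← hPc, ← hPd]
    simp only [mem_inter_iff, mem_ofPred_eq]
    constructor
    · rintro ⟨h1, h2⟩; exact ⟨by linarith, by linarith⟩
    · rintro ⟨h1, h2⟩; exact ⟨by linarith, by linarith⟩
  have q3 : quad P (-rot u) = {x | c ≤ dot u x} ∩ {x | dot (rot u) x ≤ d} := by
    ext x
    rw [quad_iff _ _ _ (neg_ne_zero.2 hu'), hrr, hsub, hsub, hneg, hneg, ← hPc, ← hPd]
    simp only [mem_inter_iff, mem_ofPred_eq]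
    constructor
    · rintro ⟨h1, h2⟩; exact ⟨by linarith, by linarith⟩
    · rintro ⟨h1, h2⟩; exact ⟨by linarith, by linarith⟩
  have m0 := real_of_vol (quad_meas P u hu) (hq 0)
  have m1 := real_of_vol (quad_meas P _ hu') (hq 1)
  have m3 : (mu R).real (quad P (-rot u)) = M R / 4 := by
    have h3 := hq 3
    have e3 : rot^[3] u = - rot u := by
      show rot (rot (rot u)) = - rot u
      rw [rot_rot]
    rw [e3] at h3
    exact real_of_vol (quad_meas P _ (neg_ne_zero.2 hu')) h3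
  rw [q0] at m0
  rw [q1] at m1
  rw [q3] at m3
  have s1 : H R u c = M R / 2 := by
    have := split h {x | c ≤ dot u x} (rot u) hu' d
    unfold H
    rw [this]
    linarith
  have s2 : H R (rot u) d = M R / 2 := by
    have := split h {x | d ≤ dot (rot u) x} u hu c
    rw [inter_comm {x | d ≤ dot (rot u) x} {x | c ≤ dot u x},
      inter_comm {x | d ≤ dot (rot u) x}] at this
    unfold H
    rw [this]
    linarith
  have hc : c = hh R φ := b2 φ c s1
  have hd : d = hh R (φ + Real.pi / 2) := by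
    apply b2
    rw [← rot_e]
    exact s2
  refine ⟨?_, ?_⟩
  · have := pt_unique φ P
    unfold Pt
    rw [← hc, ← hd]
    exact this
  · unfold G
    rw [← hc, ← hd, ← rot_e]
    unfold App
    rw [m0]
    ring

theorem quadr_form (hB : P_BASIC) {R : Set E2} (h : Body R) (a : ℝ) {q : Set (Set E2)}
    (hq : IsQuadrisection R q) : ∃ φ : ℝ, a ≤ φ ∧ φ < a + Real.pi / 2 ∧ G R φ = 0 ∧ q = Ps R φ := by
  obtain ⟨P, u, hP, hu, rfl, hk⟩ := hq
  obtain ⟨r, φ0, hr, rfl⟩ := polar hu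
  obtain ⟨k, φ, h1, h2, h3⟩ := exists_shift a φ0
  have hq' : ∀ j : ℕ, volume (R ∩ quad P (rot^[j] (e φ))) = volume R / 4 := by
    intro j
    have := hk (j + k)
    rwa [rot_iter_smul, quad_smul _ _ hr, Function.iterate_add_apply, h3] at this
  obtain ⟨h4, h5⟩ := data hB h hq'
  refine ⟨φ, h1, h2, h5, ?_⟩
  unfold Ps
  rw [← h4, rot_smul, line_smul _ _ hr.ne', line_smul _ _ hr.ne', ← lines_iter P (e φ0) k, h3]

theorem BIJ : P_BIJ := by
  intro hB R h a
  obtain ⟨b1, b2, -, -, -, -⟩ := hB R h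
  have hset : {q | IsQuadrisection R q} =
      Ps R '' {θ : ℝ | a ≤ θ ∧ θ < a + Real.pi / 2 ∧ G R θ = 0} := by
    ext q
    constructor
    · intro hq
      obtain ⟨φ, h1, h2, h3, h4⟩ := quadr_form hB h a hq
      exact ⟨φ, ⟨h1, h2, h3⟩, h4.symm⟩
    · rintro ⟨θ, ⟨h1, h2, h3⟩, rfl⟩
      have e1 : App R (e θ) (rot (e θ)) (hh R θ) (hh R (θ + Real.pi / 2)) = M R / 4 := by
        unfold G at h3
        rw [rot_e]
        linarith
      obtain ⟨P, hP⟩ := quadrisection_of h (e_ne θ) (b1 θ) (by rw [rot_e]; exact b1 _) e1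
      obtain ⟨φ, g1, g2, g3, g4⟩ := quadr_form hB h a hP
      have hφ : θ = φ := pair_dir h1 h2 g1 g2 g4
      rw [mem_ofPred_eq, hφ, ← g4]
      exact hP
  rw [hset]
  apply InjOn.encard_image
  rintro θ ⟨h1, h2, -⟩ ψ ⟨h3, h4, -⟩ he
  exact pair_dir h1 h2 h3 h4 he

end Pool.Agent.W2helper85.QD
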